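import Pool.Agent.H53.HR.Targets

/-! Module FM of MP_f2da09_co: reduction to a square matrix. -/

namespace Pool.Agent.H42.HR

open Finset
open Pool.Agent.H53.CZD (lc LE VMClosed R0)
open Pool.Agent.H53.HR

theorem nb_mem_span {V : Type} [DecidableEq V] (G : SimpleGraph V) (Q : Finset V) (v : V) :
    nb G Q v ∈ Submodule.span (ZMod 2)
      ((fun q => (Pi.single q 1 : V → ZMod 2)) '' (Q : Set V)) := by
  classical
  have h : nb G Q v =
      ∑ q ∈ Q, (if G.Adj v q then (1 : ZMod 2) else 0) • (Pi.single q 1 : V → ZMod 2) := by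
    ext i
    rw [Finset.sum_apply]
    have : ∀ q ∈ Q, ((if G.Adj v q then (1 : ZMod 2) else 0) •
        (Pi.single q 1 : V → ZMod 2)) i = if i = q then (if G.Adj v q then 1 else 0) else 0 := by
      intro q _
      rw [Pi.smul_apply, smul_eq_mul, Pi.single_apply]
      split_ifs <;> simp
    rw [Finset.sum_congr rfl this, Finset.sum_ite_eq]
    unfold nb
    by_cases h1 : i ∈ Q <;> simp [h1]
  rw [h]
  exact Submodule.sum_mem _ fun q hq => Submodule.smul_mem _ _
    (Submodule.subset_span ⟨q, hq, rfl⟩)

theorem card_le_of_span {V : Type} (f g : V → (V → ZMod 2)) (A B : Finset V)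
    (hA : LinearIndepOn (ZMod 2) f (A : Set V))
    (h : ∀ a ∈ A, f a ∈ Submodule.span (ZMod 2) (g '' (B : Set V))) : #A ≤ #B := by
  classical
  have h1 := linearIndependent_le_span' (fun a : (A : Set V) => f a) hA
    ((B.image g : Finset (V → ZMod 2)) : Set (V → ZMod 2)) (by
      rintro _ ⟨a, rfl⟩
      rw [Finset.coe_image]
      exact h a a.2)
  have h2 : Fintype.card ((B.image g : Finset (V → ZMod 2)) : Set (V → ZMod 2)) =
      #(B.image g) := by simp
  rw [h2, Cardinal.mk_fintype] at h1
  have h3 : Fintype.card ((A : Set V)) = #A := by simp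
  rw [h3] at h1
  exact (Nat.cast_le.1 h1).trans Finset.card_image_le

theorem fm (h1 : LQA) (h2 : LCC) (h4 : LTR) (h5 : STP) : FM := by
  intro V _ G Q H
  induction hn : #Q using Nat.strong_induction_on generalizing G Q with
  | _ n ih =>
    intro hc hd hH hL
    have hle : #H ≤ #Q := card_le_of_span _ _ _ _ hL fun a _ => nb_mem_span G Q a
    by_cases heq : #Q = #H
    · exact ⟨G, Q, Finset.Subset.refl _, LQ.refl, hc, heq, hL⟩
    have hlt : #H < #Q := by omega
    have hH1 : 1 ≤ #H := hH.card_pos
    obtain ⟨q, hq, heW⟩ : ∃ q ∈ Q, (Pi.single q 1 : V → ZMod 2) ∉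
        Submodule.span (ZMod 2) (nb G Q '' (H : Set V)) := by
      by_contra hcon
      push Not at hcon
      have hind : LinearIndepOn (ZMod 2) (fun q => (Pi.single q 1 : V → ZMod 2)) (Q : Set V) :=
        (Pi.linearIndependent_single_one V (ZMod 2)).linearIndepOn _
      have := card_le_of_span _ _ _ _ hind hcon
      omega
    have h2Q : 2 ≤ #Q := by omega
    have hcard : #(Q.erase q) < n := by rw [Finset.card_erase_of_mem hq]; omega
    have hdis : Disjoint (Q.erase q) H := hd.mono_left (erase_subset _ _)
    by_cases hcon : Conn G (Q.erase q)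
    · obtain ⟨G', Q', hQ', hLQ, hC', hcd, hL'⟩ := ih _ hcard G (Q.erase q) rfl hcon hdis hH
        ((h5 V G Q H q hc hd hL hq h2Q).1 hcon heW)
      exact ⟨G', Q', hQ'.trans (erase_subset _ _), (h1 V _ _ _ hLQ).2.1 Q (erase_subset _ _),
        hC', hcd, hL'⟩
    · by_cases hB : nb G Q q + Pi.single q 1 ∉ Submodule.span (ZMod 2) (nb G Q '' (H : Set V))
      · obtain ⟨hc1, hL1⟩ := (h5 V G Q H q hc hd hL hq h2Q).2 hcon hB
        obtain ⟨G', Q', hQ', hLQ, hC', hcd, hL'⟩ :=
          ih _ hcard (lc G q) (Q.erase q) rfl hc1 hdis hH hL1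
        exact ⟨G', Q', hQ'.trans (erase_subset _ _),
          (h1 V Q G (lc G q) (LQ.step q hq LQ.refl)).2.2.1 G'
            ((h1 V _ _ _ hLQ).2.1 Q (erase_subset _ _)), hC', hcd, hL'⟩
      · rw [not_not] at hB
        have hN : nb G Q q ∉ Submodule.span (ZMod 2) (nb G Q '' (H : Set V)) := by
          intro h
          apply heW
          have := Submodule.sub_mem _ hB h
          rwa [add_sub_cancel_left] at this
        obtain ⟨x, hx, q', hq', hq'x, hadj⟩ := hc.2 {q} (by simpa using hq) ⟨q, by simp⟩ (by
          intro h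
          rw [← h] at h2Q
          simp at h2Q)
        rw [Finset.mem_singleton] at hx hq'x
        subst hx
        have hcG1 : Conn (lc G q') Q := h2 V G Q q' hc hq'
        have hz : nb G Q q' q' = 0 := by unfold nb; simp
        let φ : (V → ZMod 2) →ₗ[ZMod 2] (V → ZMod 2) :=
          LinearMap.id + (LinearMap.proj q').smulRight (nb G Q q')
        have hφ : ∀ t, φ t = t + (t q') • nb G Q q' := fun t => rfl
        have hφφ : ∀ t, φ (φ t) = t := by
          intro t
          rw [hφ (φ t), hφ t]
          have e1 : (t + t q' • nb G Q q') q' = t q' := by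
            rw [Pi.add_apply, Pi.smul_apply, hz]; simp
          rw [e1, add_assoc, ← add_smul, CharTwo.add_self_eq_zero, zero_smul, add_zero]
        have hnb : ∀ h ∈ H, nb (lc G q') Q h = φ (nb G Q h) := fun h hh =>
          (h4 V G Q q' h (fun hc => (Finset.disjoint_left.1 hd hc hh)) hq').1
        have hspan : Submodule.span (ZMod 2) (nb (lc G q') Q '' (H : Set V)) =
            (Submodule.span (ZMod 2) (nb G Q '' (H : Set V))).map φ := by
          rw [Submodule.map_span, Set.image_image]
          congr 1
          exact Set.image_congr hnb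
        have hker : LinearMap.ker φ = ⊥ := by
          rw [LinearMap.ker_eq_bot]
          intro a b hab
          rw [← hφφ a, ← hφφ b, hab]
        have hL1 : LinearIndepOn (ZMod 2) (nb (lc G q') Q) (H : Set V) := by
          have h6 : LinearIndepOn (ZMod 2) (fun h => φ (nb G Q h)) (H : Set V) :=
            LinearIndependent.map' hL φ hker
          exact h6.congr (fun h hh => (hnb h hh).symm)
        have hN1 : nb (lc G q') Q x + Pi.single x 1 = φ (nb G Q x) := by
          rw [hφ]
          have e2 : nb G Q x q' = 1 := by unfold nb; simp [hq', hadj]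
          rw [e2, one_smul]
          ext i
          rw [Pi.add_apply, Pi.add_apply]
          unfold nb
          rw [Pi.single_apply]
          by_cases hi : i = x
          · subst hi
            have e3 : ¬ (lc G q').Adj i i := (lc G q').irrefl
            have e4 : ¬ G.Adj i i := G.irrefl
            have e5 : G.Adj q' i := hadj.symm
            simp [e5, hq]
          · by_cases hiQ : i ∈ Q
            · have e6 : (lc G q').Adj x i ↔ ¬ (G.Adj x i ↔ G.Adj q' i) := by
                constructor
                · intro h7 h8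
                  exact h7.2 ⟨fun h9 => ⟨hadj.symm, h8.1 h9⟩, fun h9 => h8.2 h9.2⟩
                · intro h7
                  refine ⟨fun h => hi h.symm, fun h8 => h7 ⟨fun h9 => (h8.1 h9).2, fun h9 =>
                    h8.2 ⟨hadj.symm, h9⟩⟩⟩
              by_cases e7 : G.Adj x i <;> by_cases e8 : G.Adj q' i <;>
                simp [hiQ, hi, e6, e7, e8]
              rfl
            · simp [hiQ, hi]
        have hN1W : nb (lc G q') Q x + Pi.single x 1 ∉
            Submodule.span (ZMod 2) (nb (lc G q') Q '' (H : Set V)) := by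
          rw [hN1, hspan]
          rintro ⟨t, ht, hte⟩
          apply hN
          have : t = nb G Q x := by rw [← hφφ t, hte, hφφ]
          rwa [← this]
        have hncon : ¬ Conn (lc G q') (Q.erase x) := fun h => hcon (by
          have h6 := h2 V (lc G q') (Q.erase x) q' h (Finset.mem_erase.2 ⟨hq'x, hq'⟩)
          have h7 : lc (lc G q') q' = G := by
            obtain ⟨h0, hh0⟩ := hH
            exact (h4 V G Q q' h0 (fun hc => (Finset.disjoint_left.1 hd hc hh0)) hq').2.2
          rwa [h7] at h6)
        obtain ⟨hc2, hL2⟩ := (h5 V (lc G q') Q H x hcG1 hd hL1 hq h2Q).2 hncon hN1W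
        obtain ⟨G', Q', hQ', hLQ, hC', hcd, hL'⟩ :=
          ih _ hcard (lc (lc G q') x) (Q.erase x) rfl hc2 hdis hH hL2
        exact ⟨G', Q', hQ'.trans (erase_subset _ _),
          (h1 V Q G (lc (lc G q') x) (LQ.step x hq (LQ.step q' hq' LQ.refl))).2.2.1 G'
            ((h1 V _ _ _ hLQ).2.1 Q (erase_subset _ _)), hC', hcd, hL'⟩

end Pool.Agent.H42.HR
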